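import Mathlib
import Pool.Agent.Lib_helper57.RTM.Defs
import Pool.Agent.Lib_helper57.RTM.Final

/-! Q2: the reversal hierarchy for linear time and a fixed number of tapes. -/

namespace Pool.Agent.Results.MP_6f41f0_lc.ReversalHierarchy

open Pool.Agent.Lib57.RTM

/-- For all `k ≥ 1` and `m ≥ 0`, one more reversal on each of the `k` tapes gives a properly
larger class of languages accepted in linear time; a separating language exists over the
four-letter alphabet `Sym`. -/
theorem result (k m : ℕ) (hk : 1 ≤ k) :
    ClassLT k m k (m + 1) ∧
    ∃ L : Language Sym, L ∈ LinRev Sym k (m + 1) ∧ L ∉ LinRev Sym k m :=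
  ⟨classLT_revs k m hk, sep_revs k m hk⟩

end Pool.Agent.Results.MP_6f41f0_lc.ReversalHierarchy
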