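import Mathlib
import Pool.Agent.Lib_helper57.RTM.Defs
import Pool.Agent.Lib_helper57.RTM.Final

/-! Q1: the tape hierarchy for linear time and a fixed number of reversals. -/

namespace Pool.Agent.Results.MP_6f41f0_lc.TapeHierarchy

open Pool.Agent.Lib57.RTM

/-- For `k ≥ 1` tapes and `m ≥ 0` reversals, one more tape gives a properly larger class of
languages accepted in linear time if and only if `m ≥ 1`. For `m ≥ 1` there is a separating
language over the four-letter alphabet `Sym`; for `m = 0` the two classes coincide over every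
alphabet. -/
theorem result (k m : ℕ) (_hk : 1 ≤ k) :
    (ClassLT k m (k + 1) m ↔ 1 ≤ m) ∧
    (1 ≤ m → ∃ L : Language Sym, L ∈ LinRev Sym (k + 1) m ∧ L ∉ LinRev Sym k m) ∧
    (m = 0 → ∀ α : Type, LinRev α (k + 1) m = LinRev α k m) := by
  refine ⟨classLT_tapes k m, sep_tapes k m, ?_⟩
  rintro rfl α
  exact zero_eq α k

end Pool.Agent.Results.MP_6f41f0_lc.TapeHierarchy
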